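import Pool.Agent.TH735.AQ.Nec
import Pool.Agent.TH128.SYZ.PsefConv

set_option autoImplicit false

/-!
# Nef line bundles on quotients of complex tori by finite groups

Let `X = V / Γ` be the quotient of a complex torus of any dimension by any finite group; `X` is klt,
and `K_X` is torsion as a divisor class if and only if no element of the group acts as a
quasi-reflection. `X` need not be smooth and not be projective. The theorem says that every nef line
bundle on `X` is semiample if and only if `H^1(X, O_X) = 0`. In this case a line bundle is
pseudo-effective if and only if it is nef, if and only if it is semiample; the fibration given by a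
nef line bundle `L` is `V / Γ → W / Δ`, where `W` is the quotient of `V` by the kernel of the Chern form
of `L`.

The proof: let `K` be the kernel of the Chern form `H ≥ 0` of `L`, `Λ` the lattice of `Γ` and `G` the
finite group of linear parts. The factor of automorphy of `L` gives a character `χ` of `Λ ∩ K` which is
invariant under `G`, so that `χ(b) ^ |G| = χ(∑ g b) = 1` if there are no invariant vectors. An element
of `Γ` which fixes a point of `W` acts on the fibre over it with its `|G|`-th power a translation by
an element of `Λ ∩ K`; therefore `L ^ (|G| ^ 2)` descends to `W / Δ`, and the group `Δ` (whose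
translations need not come from translations in `Γ`) is discrete since `|G|` times a
translation of `Δ` comes from `Λ`. Conversely, if `H^1(X, O_X) ≠ 0`, an invariant real functional on
`V` gives a flat line bundle of infinite order; it is nef, and a power of it can be the
pullback of an ample line bundle only from a point, by Liouville's theorem, which is impossible.

`latt`, `IsTorusQuotient` and `LineBundle` are defined in `Pool.Agent.W594.SYZ.Defs2`; `IsChernForm`,
`IsNefForm`, `IsPositiveForm` and `Induces` in `Pool.Agent.W594.SYZ.TQDefs`; `IsPseudoEffective` in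
`Pool.Agent.TH128.SYZ.PsefDefs`; `HOneZero`, `IsFibration` and `IsSemiample` in
`Pool.Agent.TH735.AQ.Defs`.
-/

namespace Pool.Agent.Results.MP_cda8c3_ag.TorusQuotients

open Pool.Agent.W594.SYZ2 Pool.Agent.TH128.SYZ Pool.Agent.TH735.AQ

/-- Let `X = V / Γ` be a quotient of a complex torus by a finite group. All nef line bundles on
`X` are semiample if and only if `H^1(X, O_X) = 0`. If `H^1(X, O_X) = 0` and `L` is a line bundle on `X`
with Chern form `H`, then `L` is pseudo-effective if and only if it is nef, and in this case there are a
fibration `f : X → B`, given by a linear map `π` whose kernel is the kernel of `H`, over a torus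
quotient `B = ℂ ^ n / Δ`, an ample line bundle `A` on `B` and `m ≥ 1` such that `L ^ m` is isomorphic
to `f^* A`. -/
theorem result {V : Type*} [NormedAddCommGroup V] [NormedSpace ℂ V] [FiniteDimensional ℂ V]
    (Γ : Subgroup (V ≃ᵃ[ℂ] V)) (hΓ : IsTorusQuotient Γ) :
    (HOneZero Γ ↔ ∀ (L : LineBundle Γ) (H : V → V → ℂ), IsChernForm L H → IsNefForm H →
      IsSemiample L) ∧
    (HOneZero Γ → ∀ (L : LineBundle Γ) (H : V → V → ℂ), IsChernForm L H →
      (IsPseudoEffective L ↔ IsNefForm H) ∧
      (IsNefForm H → ∃ (n : ℕ) (Δ : Subgroup ((Fin n → ℂ) ≃ᵃ[ℂ] (Fin n → ℂ)))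
        (π : V →ₗ[ℂ] (Fin n → ℂ)), (∀ v, π v = 0 ↔ ∀ w, H v w = 0) ∧
          IsFibration Γ Δ π ∧ Induces L Δ π)) := by
  refine ⟨⟨fun h01 L H hc hn => ?_, fun h => ?_⟩, fun h01 L H hc =>
    ⟨psef_iff_nef hΓ hc, fun hn => semiample hΓ h01 hc hn⟩⟩
  · obtain ⟨n, Δ, π, -, h2, h3⟩ := semiample hΓ h01 hc hn
    exact ⟨n, Δ, π, h2, h3⟩
  · by_contra h01
    obtain ⟨P, hP, hns⟩ := exists_flat hΓ h01
    obtain ⟨n, Δ, π, h2, h3⟩ := h P (fun _ _ => 0) (chern_of_flat hP) (fun v => by simp)
    exact hns n Δ π h2 h3

end Pool.Agent.Results.MP_cda8c3_ag.TorusQuotients
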